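import Mathlib

/-!
# Multiples of a real number which are slightly above an integer

If `fract (q θ) ≥ 1 / M` for all `1 ≤ q ≤ Q`, then at most `M / Q + 5 δ M + 2` of the `m < M` have
`fract (m θ) < δ`.
-/

set_option autoImplicit false

open Finset

namespace Pool.Agent.U810.SM

lemma spaced (S : Finset ℕ) (M : ℕ) (D : ℝ) (hD : 0 < D) (hS : ∀ s ∈ S, s < M)
    (hsp : ∀ s ∈ S, ∀ s' ∈ S, s < s' → D ≤ (s' : ℝ) - s) : (S.card : ℝ) ≤ M / D + 1 := by
  have h1 : S.card ≤ (range (⌊(M : ℝ) / D⌋₊ + 1)).card := by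
    refine card_le_card_of_injOn (fun s => ⌊(s : ℝ) / D⌋₊) ?_ ?_
    · intro s hs
      simp only [coe_range, Set.mem_Iio]
      have h2 : (s : ℝ) / D ≤ M / D := by
        have : (s : ℝ) ≤ M := by exact_mod_cast (hS s hs).le
        exact div_le_div_of_nonneg_right this hD.le
      have := Nat.floor_le_floor h2
      omega
    · have key : ∀ s ∈ S, ∀ s' ∈ S, s < s' → ⌊(s : ℝ) / D⌋₊ < ⌊(s' : ℝ) / D⌋₊ := by
        intro s hs s' hs' hlt
        have h2 := hsp s hs s' hs' hlt
        have h3 : (s : ℝ) / D + 1 ≤ s' / D := by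
          rw [div_add_one hD.ne']
          exact div_le_div_of_nonneg_right (by linarith) hD.le
        have h4 := Nat.floor_le_floor h3
        rw [Nat.floor_add_one (by positivity)] at h4
        omega
      intro s hs s' hs' heq
      rcases lt_trichotomy s s' with h | h | h
      · have := key s hs s' hs' h
        simp only at heq
        omega
      · exact h
      · have := key s' hs' s hs h
        simp only at heq
        omega
  rw [card_range] at h1
  have h2 : (S.card : ℝ) ≤ ((⌊(M : ℝ) / D⌋₊ + 1 : ℕ) : ℝ) := by exact_mod_cast h1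
  have h3 := Nat.floor_le (a := (M : ℝ) / D) (by positivity)
  push_cast at h2
  linarith

section
variable {θ δ : ℝ}

lemma fract_of {x f : ℝ} (z : ℤ) (h0 : 0 ≤ f) (h1 : f < 1) (h : x = z + f) : Int.fract x = f := by
  rw [Int.fract_eq_iff]
  exact ⟨h0, h1, z, by rw [h]; ring⟩

/-- the set of the `m < M` with `fract (m θ) < δ` -/
noncomputable def G (θ δ : ℝ) (M : ℕ) : Finset ℕ :=
  (range M).filter (fun m => Int.fract ((m : ℝ) * θ) < δ)

lemma mem_G {M m : ℕ} : m ∈ G θ δ M ↔ m < M ∧ Int.fract ((m : ℝ) * θ) < δ := by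
  unfold G
  rw [mem_filter, mem_range]

/-- the case `β > 0` -/
lemma rot_pos {M q : ℕ} {a : ℤ} {β : ℝ} (hq : 1 ≤ q) (hδ1 : (q : ℝ) * δ ≤ 1 / 2)
    (hβ : (q : ℝ) * θ = a + β) (hβ0 : 0 < β) (hβδ : β < δ) (hMβ : 1 ≤ M * β)
    (hmin : ∀ d : ℕ, 1 ≤ d → d < q → ∀ b : ℤ, δ ≤ |(d : ℝ) * θ - b|) :
    ((G θ δ M).card : ℝ) ≤ 5 * δ * M + 1 := by
  have hqR : (1 : ℝ) ≤ q := by exact_mod_cast hq
  have hδ0 : 0 < δ := hβ0.trans hβδ
  have hδ2 : δ ≤ 1 / 2 := by nlinarith
  have hS : ((G θ β M).card : ℝ) ≤ 2 * β * M + 1 := by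
    have h1 := spaced (G θ β M) M (1 / (2 * β)) (by positivity) (fun s hs => (mem_G.1 hs).1) ?_
    · have e : (M : ℝ) / (1 / (2 * β)) = 2 * β * M := by field_simp
      rwa [e] at h1
    intro s hs s' hs' hlt
    obtain ⟨-, hs1⟩ := mem_G.1 hs
    obtain ⟨-, hs2⟩ := mem_G.1 hs'
    obtain ⟨d, rfl⟩ : ∃ d, s' = s + d := ⟨s' - s, by omega⟩
    have hd : 1 ≤ d := by omega
    have hdR : (1 : ℝ) ≤ d := by exact_mod_cast hd
    set b : ℤ := ⌊((s + d : ℕ) : ℝ) * θ⌋ - ⌊(s : ℝ) * θ⌋ with hb
    have h0 := Int.fract_nonneg ((s : ℝ) * θ)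
    have h0' := Int.fract_nonneg (((s + d : ℕ) : ℝ) * θ)
    have h2 : (d : ℝ) * θ - b = Int.fract (((s + d : ℕ) : ℝ) * θ) - Int.fract ((s : ℝ) * θ) := by
      rw [hb, Int.fract, Int.fract]
      push_cast
      ring
    have h3 : |(d : ℝ) * θ - b| < β := by rw [h2, abs_lt]; constructor <;> linarith
    set t : ℤ := q * b - d * a with ht
    have h4 : (q : ℝ) * (d * θ - b) = d * β - t := by
      rw [ht]; push_cast
      linear_combination (d : ℝ) * hβ
    have h5 : |(d : ℝ) * β - t| < q * β := by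
      rw [← h4, abs_mul, abs_of_pos (by linarith : (0 : ℝ) < q)]
      exact mul_lt_mul_of_pos_left h3 (by linarith)
    have h6 : (q : ℝ) * β ≤ 1 / 2 := by nlinarith
    rw [abs_lt] at h5
    have h7 : (1 : ℝ) / 2 ≤ d * β := by
      rcases lt_trichotomy t 0 with h | h | h
      · have h8 : (t : ℝ) ≤ -1 := by exact_mod_cast (by omega : t ≤ -1)
        have : 0 < (d : ℝ) * β := by positivity
        linarith
      · rw [h] at h5
        push_cast at h5
        have h8 : (d : ℝ) < q := by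
          by_contra hc
          push Not at hc
          nlinarith
        have h9 : d < q := by exact_mod_cast h8
        have := hmin d hd h9 b
        linarith
      · have h8 : (1 : ℝ) ≤ t := by exact_mod_cast (by omega : 1 ≤ t)
        linarith
    rw [div_le_iff₀ (by positivity)]
    push_cast
    linarith
  have hG : (G θ δ M).card ≤ (G θ β M ×ˢ range (⌊δ / β⌋₊ + 1)).card := by
    have hsub : G θ δ M ⊆ (G θ β M ×ˢ range (⌊δ / β⌋₊ + 1)).image (fun p => p.1 + p.2 * q) := by
      intro m hm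
      obtain ⟨hmM, hmδ⟩ := mem_G.1 hm
      set f := Int.fract ((m : ℝ) * θ) with hf
      have hf0 : 0 ≤ f := Int.fract_nonneg _
      have hfe : (m : ℝ) * θ = ⌊(m : ℝ) * θ⌋ + f := (Int.floor_add_fract _).symm
      set k := ⌊f / β⌋₊ with hk
      have hk1 : (k : ℝ) * β ≤ f := by
        have := Nat.floor_le (a := f / β) (by positivity)
        rwa [le_div_iff₀ hβ0] at this
      have hk2 : f < (k + 1) * β := by
        have := Nat.lt_floor_add_one (f / β)
        rwa [div_lt_iff₀ hβ0] at this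
      -- going back `j` steps
      have hback : ∀ j r : ℕ, j ≤ k → m = r + j * q →
          Int.fract ((r : ℝ) * θ) = f - j * β := by
        intro j r hj hr
        have hjR : (j : ℝ) ≤ k := by exact_mod_cast hj
        have hj0 : (0 : ℝ) ≤ j := Nat.cast_nonneg _
        have h1 : (j : ℝ) * β ≤ k * β := mul_le_mul_of_nonneg_right hjR hβ0.le
        refine fract_of (⌊(m : ℝ) * θ⌋ - j * a) (by linarith) (by nlinarith) ?_
        have h2 : (m : ℝ) = r + j * q := by exact_mod_cast hr
        push_cast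
        have h3 : (r : ℝ) * θ = m * θ - j * (q * θ) := by rw [h2]; ring
        linear_combination h3 + hfe - (j : ℝ) * hβ
      have hkq : k * q ≤ m := by
        by_contra hcon
        push Not at hcon
        have hk' : m / q < k := by
          rw [Nat.div_lt_iff_lt_mul (by omega)]
          exact hcon
        have h1 := hback (m / q) (m % q) hk'.le (by rw [mul_comm]; exact (Nat.mod_add_div m q).symm)
        have h2 : m % q < q := Nat.mod_lt _ (by omega)
        have h3 : ((m / q : ℕ) : ℝ) + 1 ≤ k := by exact_mod_cast hk'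
        have h4 : ((m / q : ℕ) : ℝ) * β + β ≤ k * β := by
          have := mul_le_mul_of_nonneg_right h3 hβ0.le
          linarith
        rcases Nat.eq_zero_or_pos (m % q) with h0 | h0
        · rw [h0] at h1
          simp only [Nat.cast_zero, zero_mul, Int.fract_zero] at h1
          linarith
        · have h5 := hmin (m % q) h0 h2 ⌊((m % q : ℕ) : ℝ) * θ⌋
          have h6 : ((m % q : ℕ) : ℝ) * θ - ⌊((m % q : ℕ) : ℝ) * θ⌋ = f - ((m / q : ℕ) : ℝ) * β := by
            rw [← h1, Int.fract]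
          rw [h6, abs_of_nonneg (by linarith)] at h5
          have : 0 ≤ ((m / q : ℕ) : ℝ) * β := by positivity
          linarith
      obtain ⟨s, hs⟩ : ∃ s, m = s + k * q := ⟨m - k * q, by omega⟩
      have h1 := hback k s le_rfl hs
      rw [mem_image]
      refine ⟨(s, k), ?_, hs.symm⟩
      rw [mem_product]
      constructor
      · rw [mem_G]
        refine ⟨by simp only; omega, ?_⟩
        simp only
        rw [h1]
        linarith
      · simp only [mem_range]
        have : k ≤ ⌊δ / β⌋₊ := Nat.floor_le_floor (div_le_div_of_nonneg_right hmδ.le hβ0.le)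
        omega
    exact (card_le_card hsub).trans card_image_le
  rw [card_product, card_range] at hG
  have hG' : ((G θ δ M).card : ℝ) ≤ (G θ β M).card * (⌊δ / β⌋₊ + 1) := by exact_mod_cast hG
  have hfl := Nat.floor_le (a := δ / β) (by positivity)
  have hM0 : (0 : ℝ) ≤ M := Nat.cast_nonneg _
  have h1 : ((G θ β M).card : ℝ) * (⌊δ / β⌋₊ + 1) ≤ (2 * β * M + 1) * (δ / β + 1) :=
    mul_le_mul hS (by linarith) (by positivity) (by positivity)
  have h2 : (2 * β * M + 1) * (δ / β + 1) = 2 * δ * M + 2 * β * M + δ / β + 1 := by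
    field_simp
    ring
  have h3 : δ / β ≤ δ * M := by
    rw [div_le_iff₀ hβ0]
    nlinarith
  have h4 : β * M ≤ δ * M := mul_le_mul_of_nonneg_right hβδ.le hM0
  linarith

/-- the case `β = - γ < 0` -/
lemma rot_neg {M q : ℕ} {a : ℤ} {γ : ℝ} (hq : 1 ≤ q) (hδ1 : (q : ℝ) * δ ≤ 1 / 2)
    (hβ : (q : ℝ) * θ = a - γ) (hγ0 : 0 < γ) (hγδ : γ < δ)
    (hmin : ∀ d : ℕ, 1 ≤ d → d < q → ∀ b : ℤ, δ ≤ |(d : ℝ) * θ - b|) :
    ((G θ δ M).card : ℝ) ≤ 4 * δ * M + 1 := by
  have hqR : (1 : ℝ) ≤ q := by exact_mod_cast hq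
  have hδ0 : 0 < δ := hγ0.trans hγδ
  have hδ2 : δ ≤ 1 / 2 := by nlinarith
  have hM0 : (0 : ℝ) ≤ M := Nat.cast_nonneg _
  set S := (range M).filter (fun m : ℕ => 1 ≤ m ∧ δ - γ ≤ Int.fract ((m : ℝ) * θ) ∧
    Int.fract ((m : ℝ) * θ) < δ) with hS
  rcases Nat.eq_zero_or_pos M with hMz | hMpos
  · have : G θ δ M = ∅ := by
      unfold G
      rw [hMz]
      simp
    rw [this, card_empty]
    push_cast
    positivity
  have hScard : (S.card : ℝ) ≤ 2 * γ * M := by
    have h0S : 0 ∉ S := by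
      rw [hS, mem_filter]
      rintro ⟨-, h, -⟩
      omega
    have h1 := spaced (insert 0 S) M (1 / (2 * γ)) (by positivity) ?_ ?_
    · have e : (M : ℝ) / (1 / (2 * γ)) = 2 * γ * M := by field_simp
      rw [e, card_insert_of_notMem h0S] at h1
      push_cast at h1
      linarith
    · intro s hs
      rcases mem_insert.1 hs with h | h
      · omega
      · exact mem_range.1 (mem_filter.1 h).1
    intro s hs s' hs' hlt
    have hs'S : s' ∈ S := by
      rcases mem_insert.1 hs' with h | h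
      · omega
      · exact h
    obtain ⟨-, -, hs'1, hs'2⟩ := mem_filter.1 hs'S
    have h0' := Int.fract_nonneg ((s' : ℝ) * θ)
    rcases mem_insert.1 hs with h | h
    · -- the first one
      subst h
      set b := ⌊(s' : ℝ) * θ⌋ with hb
      set f := Int.fract ((s' : ℝ) * θ) with hf
      have hfe : (s' : ℝ) * θ = b + f := (Int.floor_add_fract _).symm
      set t : ℤ := s' * a - q * b with ht
      have h4 : (t : ℝ) = s' * γ + q * f := by
        rw [ht]; push_cast
        linear_combination (q : ℝ) * hfe - (s' : ℝ) * hβ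
      have hs'R : (1 : ℝ) ≤ s' := by exact_mod_cast hlt
      have h5 : (0 : ℝ) < t := by rw [h4]; positivity
      have h6 : (1 : ℝ) ≤ t := by
        have : 0 < t := by exact_mod_cast h5
        exact_mod_cast (by omega : 1 ≤ t)
      have h7 : (q : ℝ) * f ≤ 1 / 2 := by nlinarith
      rw [div_le_iff₀ (by positivity)]
      push_cast
      linarith
    · obtain ⟨-, hs1, hs2, hs3⟩ := mem_filter.1 h
      obtain ⟨d, rfl⟩ : ∃ d, s' = s + d := ⟨s' - s, by omega⟩
      have hd : 1 ≤ d := by omega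
      have hdR : (1 : ℝ) ≤ d := by exact_mod_cast hd
      set b : ℤ := ⌊((s + d : ℕ) : ℝ) * θ⌋ - ⌊(s : ℝ) * θ⌋ with hb
      have h2 : (d : ℝ) * θ - b = Int.fract (((s + d : ℕ) : ℝ) * θ) - Int.fract ((s : ℝ) * θ) := by
        rw [hb, Int.fract, Int.fract]
        push_cast
        ring
      have h3 : |(d : ℝ) * θ - b| < γ := by rw [h2, abs_lt]; constructor <;> linarith
      set t : ℤ := q * b - d * a with ht
      have h4 : (q : ℝ) * (d * θ - b) = -(d * γ) - t := by
        rw [ht]; push_cast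
        linear_combination (d : ℝ) * hβ
      have h5 : |-((d : ℝ) * γ) - t| < q * γ := by
        rw [← h4, abs_mul, abs_of_pos (by linarith : (0 : ℝ) < q)]
        exact mul_lt_mul_of_pos_left h3 (by linarith)
      have h6 : (q : ℝ) * γ ≤ 1 / 2 := by nlinarith
      rw [abs_lt] at h5
      have h7 : (1 : ℝ) / 2 ≤ d * γ := by
        rcases lt_trichotomy t 0 with h | h | h
        · have h8 : (t : ℝ) ≤ -1 := by exact_mod_cast (by omega : t ≤ -1)
          linarith
        · rw [h] at h5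
          push_cast at h5
          have h8 : (d : ℝ) < q := by
            by_contra hc
            push Not at hc
            nlinarith
          have h9 : d < q := by exact_mod_cast h8
          have := hmin d hd h9 b
          linarith
        · have h8 : (1 : ℝ) ≤ t := by exact_mod_cast (by omega : 1 ≤ t)
          have : 0 < (d : ℝ) * γ := by positivity
          linarith
      rw [div_le_iff₀ (by positivity)]
      push_cast
      linarith
  have hG : (G θ δ M).card ≤ (insert 0 ((S ×ˢ range (⌊δ / γ⌋₊ + 1)).image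
      (fun p => p.1 + p.2 * q))).card := by
    refine card_le_card ?_
    intro m hm
    obtain ⟨hmM, hmδ⟩ := mem_G.1 hm
    rcases Nat.eq_zero_or_pos m with hm0 | hm1
    · rw [hm0]; exact mem_insert_self _ _
    refine mem_insert_of_mem ?_
    set f := Int.fract ((m : ℝ) * θ) with hf
    have hf0 : 0 ≤ f := Int.fract_nonneg _
    have hfe : (m : ℝ) * θ = ⌊(m : ℝ) * θ⌋ + f := (Int.floor_add_fract _).symm
    have hpos : 0 < (δ - f) / γ := div_pos (by linarith) hγ0
    have hc1 : 1 ≤ ⌈(δ - f) / γ⌉₊ := Nat.one_le_iff_ne_zero.2 (Nat.ceil_pos.2 hpos).ne'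
    obtain ⟨k, hk⟩ : ∃ k, ⌈(δ - f) / γ⌉₊ = k + 1 := ⟨⌈(δ - f) / γ⌉₊ - 1, by omega⟩
    have hk1 : δ - γ ≤ f + k * γ := by
      have := Nat.le_ceil ((δ - f) / γ)
      rw [hk, div_le_iff₀ hγ0] at this
      push_cast at this
      linarith
    have hk2 : f + k * γ < δ := by
      have : (k : ℝ) < (δ - f) / γ := by
        rw [← Nat.lt_ceil, hk]
        omega
      rw [lt_div_iff₀ hγ0] at this
      linarith
    have hback : ∀ j r : ℕ, j ≤ k → m = r + j * q →
        Int.fract ((r : ℝ) * θ) = f + j * γ := by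
      intro j r hj hr
      have hjR : (j : ℝ) ≤ k := by exact_mod_cast hj
      have hj0 : (0 : ℝ) ≤ j := Nat.cast_nonneg _
      have h1 : (j : ℝ) * γ ≤ k * γ := mul_le_mul_of_nonneg_right hjR hγ0.le
      refine fract_of (⌊(m : ℝ) * θ⌋ - j * a) (by positivity) (by linarith) ?_
      have h2 : (m : ℝ) = r + j * q := by exact_mod_cast hr
      push_cast
      have h3 : (r : ℝ) * θ = m * θ - j * (q * θ) := by rw [h2]; ring
      linear_combination h3 + hfe - (j : ℝ) * hβ
    have hkq : k * q < m := by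
      by_contra hcon
      push Not at hcon
      have hk' : m / q ≤ k := by
        rw [← Nat.lt_succ_iff, Nat.div_lt_iff_lt_mul (by omega)]
        nlinarith
      have h1 := hback (m / q) (m % q) hk' (by rw [mul_comm]; exact (Nat.mod_add_div m q).symm)
      have h2 : m % q < q := Nat.mod_lt _ (by omega)
      have h3 : ((m / q : ℕ) : ℝ) ≤ k := by exact_mod_cast hk'
      have h4 : ((m / q : ℕ) : ℝ) * γ ≤ k * γ := mul_le_mul_of_nonneg_right h3 hγ0.le
      have h4' : 0 ≤ ((m / q : ℕ) : ℝ) * γ := by positivity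
      rcases Nat.eq_zero_or_pos (m % q) with h0 | h0
      · rw [h0] at h1
        simp only [Nat.cast_zero, zero_mul, Int.fract_zero] at h1
        have h5 : ((m / q : ℕ) : ℝ) * γ = 0 := by linarith
        have h6 : ((m / q : ℕ) : ℝ) = 0 := by
          rcases mul_eq_zero.1 h5 with h | h
          · exact h
          · exact absurd h hγ0.ne'
        have h7 : m / q = 0 := by exact_mod_cast h6
        have h8 := Nat.mod_add_div m q
        rw [h0, h7] at h8
        omega
      · have h5 := hmin (m % q) h0 h2 ⌊((m % q : ℕ) : ℝ) * θ⌋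
        have h6 : ((m % q : ℕ) : ℝ) * θ - ⌊((m % q : ℕ) : ℝ) * θ⌋ = f + ((m / q : ℕ) : ℝ) * γ := by
          rw [← h1, Int.fract]
        rw [h6, abs_of_nonneg (by linarith)] at h5
        linarith
    obtain ⟨s, hs⟩ : ∃ s, m = s + k * q := ⟨m - k * q, by omega⟩
    have h1 := hback k s le_rfl hs
    rw [mem_image]
    refine ⟨(s, k), ?_, hs.symm⟩
    rw [mem_product]
    constructor
    · rw [hS, mem_filter, mem_range]
      simp only
      rw [h1]
      exact ⟨by omega, by omega, hk1, hk2⟩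
    · simp only [mem_range]
      have h2 : (k : ℝ) ≤ δ / γ := by
        rw [le_div_iff₀ hγ0]
        linarith
      have := Nat.le_floor h2
      omega
  have hG2 : (insert 0 ((S ×ˢ range (⌊δ / γ⌋₊ + 1)).image (fun p => p.1 + p.2 * q))).card ≤
      S.card * (⌊δ / γ⌋₊ + 1) + 1 := by
    refine (card_insert_le _ _).trans ?_
    have := card_image_le (s := S ×ˢ range (⌊δ / γ⌋₊ + 1)) (f := fun p => p.1 + p.2 * q)
    rw [card_product, card_range] at this
    omega
  have hG' : ((G θ δ M).card : ℝ) ≤ S.card * (⌊δ / γ⌋₊ + 1) + 1 := by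
    exact_mod_cast hG.trans hG2
  have hfl := Nat.floor_le (a := δ / γ) (by positivity)
  have h1 : (S.card : ℝ) * (⌊δ / γ⌋₊ + 1) ≤ (2 * γ * M) * (δ / γ + 1) :=
    mul_le_mul hScard (by linarith) (by positivity) (by positivity)
  have h2 : (2 * γ * M) * (δ / γ + 1) = 2 * δ * M + 2 * γ * M := by
    field_simp
  have h4 : γ * M ≤ δ * M := mul_le_mul_of_nonneg_right hγδ.le hM0
  linarith

/-- The rotation lemma. -/
theorem rot {M Q : ℕ} (hδ : 0 < δ) (hM : 1 ≤ M) (hQ : 1 ≤ Q) (hQδ : 2 * (Q : ℝ) * δ ≤ 1)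
    (h : ∀ q : ℕ, 1 ≤ q → q ≤ Q → 1 / (M : ℝ) ≤ Int.fract ((q : ℝ) * θ)) :
    ((G θ δ M).card : ℝ) ≤ M / Q + 5 * δ * M + 1 := by
  have hMR : (1 : ℝ) ≤ M := by exact_mod_cast hM
  have hQR : (1 : ℝ) ≤ Q := by exact_mod_cast hQ
  have hp1 : (0 : ℝ) ≤ M / Q := by positivity
  have hp2 : 0 ≤ δ * M := by positivity
  by_cases hex : ∃ q : ℕ, 1 ≤ q ∧ q ≤ Q ∧ ∃ a : ℤ, |(q : ℝ) * θ - a| < δ
  · classical
    have hex' : ∃ q : ℕ, 1 ≤ q ∧ ∃ a : ℤ, |(q : ℝ) * θ - a| < δ := by
      obtain ⟨q, h1, -, h2⟩ := hex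
      exact ⟨q, h1, h2⟩
    obtain ⟨q', hq'1, hq'Q, hq'2⟩ := hex
    set q := Nat.find hex' with hq
    obtain ⟨hq1, a, ha⟩ := Nat.find_spec hex'
    have hqq' : q ≤ q' := Nat.find_min' hex' ⟨hq'1, hq'2⟩
    have hmin : ∀ d : ℕ, 1 ≤ d → d < q → ∀ b : ℤ, δ ≤ |(d : ℝ) * θ - b| := by
      intro d hd1 hd2 b
      by_contra hcon
      push Not at hcon
      exact Nat.find_min hex' hd2 ⟨hd1, b, hcon⟩
    have hqQR : (q : ℝ) ≤ Q := by exact_mod_cast (hqq'.trans hq'Q)
    have hδ1 : (q : ℝ) * δ ≤ 1 / 2 := by nlinarith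
    have hfr := h q hq1 (hqq'.trans hq'Q)
    set β := (q : ℝ) * θ - a with hβ
    have hδ2 : δ < 1 := by nlinarith
    rw [abs_lt] at ha
    rcases lt_trichotomy β 0 with hb | hb | hb
    · have h1 := rot_neg (M := M) (γ := -β) hq1 hδ1 (by rw [hβ]; ring) (by linarith)
        (by linarith) hmin
      linarith
    · exfalso
      have h1 : (q : ℝ) * θ = a := by linarith
      rw [h1, Int.fract_intCast] at hfr
      have : 0 < 1 / (M : ℝ) := by positivity
      linarith
    · have h2 : Int.fract ((q : ℝ) * θ) = β :=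
        fract_of a hb.le (by linarith) (by rw [hβ]; ring)
      rw [h2, div_le_iff₀ (by linarith)] at hfr
      have h1 := rot_pos (M := M) (β := β) hq1 hδ1 (by rw [hβ]; ring) hb
        ha.2 (by linarith) hmin
      linarith
  · have h1 := spaced (G θ δ M) M Q (by linarith) (fun s hs => (mem_G.1 hs).1) ?_
    · linarith
    intro s hs s' hs' hlt
    obtain ⟨-, hs1⟩ := mem_G.1 hs
    obtain ⟨-, hs2⟩ := mem_G.1 hs'
    obtain ⟨d, rfl⟩ : ∃ d, s' = s + d := ⟨s' - s, by omega⟩
    have hd : 1 ≤ d := by omega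
    push_cast
    by_contra hcon
    push Not at hcon
    apply hex
    refine ⟨d, hd, ?_, ⌊((s + d : ℕ) : ℝ) * θ⌋ - ⌊(s : ℝ) * θ⌋, ?_⟩
    · have : (d : ℝ) < Q := by linarith
      have : d < Q := by exact_mod_cast this
      omega
    · have h0 := Int.fract_nonneg ((s : ℝ) * θ)
      have h0' := Int.fract_nonneg (((s + d : ℕ) : ℝ) * θ)
      have h2 : (d : ℝ) * θ - ((⌊((s + d : ℕ) : ℝ) * θ⌋ - ⌊(s : ℝ) * θ⌋ : ℤ) : ℝ) =
          Int.fract (((s + d : ℕ) : ℝ) * θ) - Int.fract ((s : ℝ) * θ) := by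
        rw [Int.fract, Int.fract]
        push_cast
        ring
      rw [h2, abs_lt]
      constructor <;> linarith

end

end Pool.Agent.U810.SM
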