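import Pool.Agent.U810.SM.Places
import Pool.Agent.U810.SM.Rot

/-!
# Double counting over the multiples `m ξ`
-/

set_option autoImplicit false

open Finset

namespace Pool.Agent.U810.SM

/-- the `k`-th binary digit of `y` after the point -/
noncomputable def digit (y : ℝ) (k : ℕ) : ℤ := ⌊y * 2 ^ k⌋ % 2

/-- the number of the digits `v` among the first `n` binary digits of `y` -/
noncomputable def count (v : ℤ) (y : ℝ) (n : ℕ) : ℕ :=
  ((Icc 1 n).filter (fun k => digit y k = v)).card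

lemma digit_one {y : ℝ} {p : ℕ} (h : 1 / 2 ≤ Int.fract ((2 : ℝ) ^ p * y)) : digit y (p + 1) = 1 := by
  unfold digit
  set z := (2 : ℝ) ^ p * y with hz
  have h1 : y * 2 ^ (p + 1) = 2 * z := by rw [hz, pow_succ]; ring
  have h2 : ⌊y * 2 ^ (p + 1)⌋ = 2 * ⌊z⌋ + 1 := by
    rw [h1, Int.floor_eq_iff]
    have h3 := Int.fract_lt_one z
    rw [Int.fract] at h h3
    push_cast
    constructor <;> linarith
  rw [h2]
  omega

lemma digit_neg {y : ℝ} (hy : Irrational y) (k : ℕ) : digit (-y) k = 1 - digit y k := by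
  unfold digit
  have h1 : ⌊-y * 2 ^ k⌋ = -⌊y * 2 ^ k⌋ - 1 := by
    have h2 : Irrational (y * ((2 ^ k : ℕ) : ℝ)) := hy.mul_natCast (by positivity)
    have h3 : y * (2 : ℝ) ^ k = y * ((2 ^ k : ℕ) : ℝ) := by push_cast; rfl
    rw [neg_mul, h3]
    set z : ℝ := y * ((2 ^ k : ℕ) : ℝ) with hz
    rw [Int.floor_eq_iff]
    push_cast
    have h4 := Int.floor_le z
    have h5 := Int.lt_floor_add_one z
    have h6 : (⌊z⌋ : ℝ) ≠ z := fun h => h2 ⟨(⌊z⌋ : ℚ), by push_cast; exact h⟩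
    have h7 : (⌊z⌋ : ℝ) < z := lt_of_le_of_ne h4 h6
    constructor <;> linarith
  rw [h1]
  omega

lemma count_neg {y : ℝ} (hy : Irrational y) (n : ℕ) : count 0 y n = count 1 (-y) n := by
  unfold count
  congr 1
  refine filter_congr fun k _ => ?_
  rw [digit_neg hy]
  omega

/-- places with a one among the next `h` digits and the number of ones -/
lemma card_le_count {y : ℝ} {h n : ℕ} (hh : 1 ≤ h) (S : Finset ℕ)
    (hS : ∀ p ∈ S, p < n ∧ 1 / (2 : ℝ) ^ h ≤ Int.fract ((2 : ℝ) ^ p * y)) :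
    S.card ≤ count 1 y (n + h) * h := by
  classical
  have h1 := card_mul_le_card_mul (s := S) (t := (Icc 1 (n + h)).filter (fun k => digit y k = 1))
    (m := 1) (n := h) (fun p k => p < k ∧ k ≤ p + h) ?_ ?_
  · rw [mul_one] at h1
    exact h1
  · intro p hp
    obtain ⟨hpn, hp2⟩ := hS p hp
    obtain ⟨i, hi, hhalf⟩ := exists_half hh hp2
    have h2 := digit_one hhalf
    rw [Nat.one_le_iff_ne_zero, Ne, card_eq_zero, ← Ne, ← nonempty_iff_ne_empty]
    refine ⟨p + i + 1, ?_⟩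
    rw [mem_bipartiteAbove, mem_filter, mem_Icc]
    exact ⟨⟨⟨by omega, by omega⟩, h2⟩, by omega, by omega⟩
  · intro k _
    have hsub : bipartiteBelow (fun p k => p < k ∧ k ≤ p + h) S k ⊆ Ico (k - h) k := by
      intro p hp
      rw [mem_bipartiteBelow] at hp
      rw [mem_Ico]
      omega
    refine (card_le_card hsub).trans ?_
    rw [Nat.card_Ico]
    omega

/-- few multiples have few places of `P` with a one among the next `h` digits -/
lemma exceptional {ξ : ℝ} {M Q h : ℕ} (hM : 1 ≤ M) (hQ : 1 ≤ Q) (hh : 5 * Q ≤ 2 ^ h) (P : Finset ℕ)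
    (hP : ∀ p ∈ P, ∀ q : ℕ, 1 ≤ q → q ≤ Q →
      1 / (M : ℝ) ≤ Int.fract ((q : ℝ) * ((2 : ℝ) ^ p * ξ))) :
    (((range M).filter (fun m : ℕ => 2 * (P.filter (fun p => 1 / (2 : ℝ) ^ h ≤
      Int.fract ((2 : ℝ) ^ p * ((m : ℝ) * ξ)))).card < P.card)).card : ℝ) ≤ 4 * (M / Q) + 2 := by
  classical
  set δ : ℝ := 1 / (2 : ℝ) ^ h with hδ
  have hδ0 : 0 < δ := by positivity
  have hMR : (1 : ℝ) ≤ M := by exact_mod_cast hM
  have hQR : (1 : ℝ) ≤ Q := by exact_mod_cast hQ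
  have h5 : 5 * (Q : ℝ) * δ ≤ 1 := by
    rw [hδ, mul_one_div, div_le_one (by positivity)]
    exact_mod_cast hh
  set Exc := (range M).filter (fun m : ℕ => 2 * (P.filter (fun p => δ ≤
      Int.fract ((2 : ℝ) ^ p * (m * ξ)))).card < P.card) with hExc
  set g : ℝ := M / Q + 5 * δ * M + 1 with hg
  have hg2 : g ≤ 2 * (M / Q) + 1 := by
    have h1 : 5 * δ * M ≤ M / Q := by
      rw [le_div_iff₀ (by linarith)]
      nlinarith
    linarith
  -- the columns
  have hcol : ∀ p ∈ P, ((Exc.filter (fun m : ℕ => Int.fract ((2 : ℝ) ^ p * (m * ξ)) < δ)).card : ℝ) ≤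
      g := by
    intro p hp
    have h1 := rot (θ := (2 : ℝ) ^ p * ξ) hδ0 hM hQ (by nlinarith) (hP p hp)
    refine le_trans ?_ h1
    have h2 : Exc.filter (fun m : ℕ => Int.fract ((2 : ℝ) ^ p * (m * ξ)) < δ) ⊆
        G ((2 : ℝ) ^ p * ξ) δ M := by
      intro m hm
      obtain ⟨h3, h4⟩ := mem_filter.1 hm
      obtain ⟨h5, -⟩ := mem_filter.1 h3
      rw [mem_G]
      refine ⟨mem_range.1 h5, ?_⟩
      have : (m : ℝ) * ((2 : ℝ) ^ p * ξ) = (2 : ℝ) ^ p * (m * ξ) := by ring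
      rw [this]
      exact h4
    exact_mod_cast card_le_card h2
  -- double counting
  have hdc : ∑ m ∈ Exc, ((P.filter (fun p => Int.fract ((2 : ℝ) ^ p * ((m : ℝ) * ξ)) < δ)).card : ℝ) =
      ∑ p ∈ P, ((Exc.filter (fun m : ℕ => Int.fract ((2 : ℝ) ^ p * (m * ξ)) < δ)).card : ℝ) := by
    have := sum_card_bipartiteAbove_eq_sum_card_bipartiteBelow (s := Exc) (t := P)
      (fun (m : ℕ) (p : ℕ) => Int.fract ((2 : ℝ) ^ p * ((m : ℝ) * ξ)) < δ)
    unfold bipartiteAbove bipartiteBelow at this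
    exact_mod_cast this
  have hrow : ∀ m ∈ Exc, (P.card : ℝ) / 2 ≤
      ((P.filter (fun p => Int.fract ((2 : ℝ) ^ p * ((m : ℝ) * ξ)) < δ)).card : ℝ) := by
    intro m hm
    obtain ⟨-, h1⟩ := mem_filter.1 hm
    have h2 := card_filter_add_card_filter_not (s := P)
      (fun p => δ ≤ Int.fract ((2 : ℝ) ^ p * ((m : ℝ) * ξ)))
    have h3 : P.filter (fun p => ¬ δ ≤ Int.fract ((2 : ℝ) ^ p * ((m : ℝ) * ξ))) =
        P.filter (fun p => Int.fract ((2 : ℝ) ^ p * ((m : ℝ) * ξ)) < δ) :=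
      filter_congr fun p _ => not_le
    rw [h3] at h2
    have h4 : P.card ≤ 2 * (P.filter (fun p => Int.fract ((2 : ℝ) ^ p * ((m : ℝ) * ξ)) < δ)).card := by
      omega
    have h5 : (P.card : ℝ) ≤ 2 *
        ((P.filter (fun p => Int.fract ((2 : ℝ) ^ p * ((m : ℝ) * ξ)) < δ)).card : ℝ) := by
      exact_mod_cast h4
    linarith
  rcases Nat.eq_zero_or_pos P.card with h0 | h0
  · have h1 : Exc = ∅ := by
      rw [hExc, filter_eq_empty_iff]
      intro m _
      rw [h0]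
      omega
    rw [h1, card_empty]
    push_cast
    positivity
  · have hPR : (0 : ℝ) < P.card := by exact_mod_cast h0
    have h1 : (Exc.card : ℝ) * (P.card / 2) ≤ P.card * g := by
      calc (Exc.card : ℝ) * (P.card / 2) = ∑ _m ∈ Exc, (P.card : ℝ) / 2 := by
            rw [sum_const, nsmul_eq_mul]
        _ ≤ _ := sum_le_sum hrow
        _ = _ := hdc
        _ ≤ ∑ _p ∈ P, g := sum_le_sum hcol
        _ = P.card * g := by rw [sum_const, nsmul_eq_mul]
    have h2 : (Exc.card : ℝ) * P.card ≤ (2 * g) * P.card := by linarith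
    have h3 := le_of_mul_le_mul_right h2 hPR
    linarith

/-- one sign -/
theorem one_sign {A B C : ℤ} (hA : 0 < A) {ξ : ℝ} (hirr : Irrational ξ)
    (hq : (A : ℝ) * ξ ^ 2 + B * ξ + C = 0) {l L Q h : ℕ} (hQ : 1 ≤ Q) (hL : 1 ≤ L) (h1 : 1 ≤ h)
    (hh : 5 * Q ≤ 2 ^ h) (hD : A.toNat * Q.factorial * 2 ^ L ≤ 2 ^ l) :
    ∃ n0 : ℕ, ∀ n : ℕ, n0 ≤ n → (((range (2 ^ l)).filter (fun m : ℕ =>
      (count 1 (m * ξ) n : ℝ) < Real.sqrt (L * n) / (17 * h))).card : ℝ) ≤
        4 * ((2 ^ l : ℕ) / (Q : ℝ)) + 2 := by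
  classical
  obtain ⟨a, rfl⟩ : ∃ a : ℕ, A = a := ⟨A.toNat, (Int.toNat_of_nonneg hA.le).symm⟩
  rw [Int.toNat_natCast] at hD
  have ha : 0 < a := by exact_mod_cast hA
  set F := Q.factorial with hF
  have hF0 : 0 < F := Nat.factorial_pos _
  set D := a * F with hDdef
  have hD0 : 0 < D := Nat.mul_pos ha hF0
  set z : ℝ := (D : ℝ) * ξ with hz
  set y := Int.fract z with hy
  have hzirr : Irrational z := hirr.natCast_mul hD0.ne'
  have hyirr : Irrational y := by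
    rw [hy, Int.fract]
    exact hzirr.sub_intCast _
  have hy0 : 0 < y := by
    refine lt_of_le_of_ne (Int.fract_nonneg _) fun h => hyirr ⟨0, by simpa using h⟩
  have hy1 : y < 1 := Int.fract_lt_one _
  set c := ⌊z⌋ with hc
  have hzy : z = y + c := by rw [hy, Int.fract]; ring
  have hz2 : z ^ 2 + ((B * F : ℤ) : ℝ) * z + ((C * a * F ^ 2 : ℤ) : ℝ) = 0 := by
    rw [hz, hDdef]
    push_cast
    push_cast at hq
    linear_combination ((a : ℝ) * F ^ 2) * hq
  have hy2 : y ^ 2 + ((2 * c + B * F : ℤ) : ℝ) * y +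
      ((c ^ 2 + B * F * c + C * a * F ^ 2 : ℤ) : ℝ) = 0 := by
    rw [hzy] at hz2
    push_cast at hz2 ⊢
    linear_combination hz2
  obtain ⟨n1, hn1⟩ := places hy0 hy1 hyirr hy2 hL
  refine ⟨n1 + 100 * h, fun n hn => ?_⟩
  obtain ⟨n', rfl⟩ : ∃ n', n = n' + h := ⟨n - h, by omega⟩
  have hpl := hn1 n' (by omega)
  have hn'h : 99 * h ≤ n' := by omega
  set P := pl L y n' with hP
  have hLR : (1 : ℝ) ≤ L := by exact_mod_cast hL
  have hhR : (1 : ℝ) ≤ h := by exact_mod_cast h1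
  have hPmem : ∀ p ∈ P, ∀ q : ℕ, 1 ≤ q → q ≤ Q →
      1 / ((2 ^ l : ℕ) : ℝ) ≤ Int.fract ((q : ℝ) * ((2 : ℝ) ^ p * ξ)) := by
    intro p hp q hq1 hq2
    obtain ⟨-, hp2⟩ := mem_filter.1 hp
    obtain ⟨e, he⟩ : q ∣ D := Dvd.dvd.mul_left (Nat.dvd_factorial hq1 hq2) a
    have he0 : 0 < e := by
      rcases Nat.eq_zero_or_pos e with h | h
      · rw [h, mul_zero] at he; omega
      · exact h
    have h2 : Int.fract ((2 : ℝ) ^ p * y) = Int.fract ((e : ℝ) * (q * ((2 : ℝ) ^ p * ξ))) := by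
      have h3 : (2 : ℝ) ^ p * y = (e : ℝ) * (q * ((2 : ℝ) ^ p * ξ)) - ((2 ^ p * c : ℤ) : ℝ) := by
        have h4 : (D : ℝ) = q * e := by exact_mod_cast he
        have h5 : y = (q : ℝ) * e * ξ - c := by rw [← h4, ← hz, hzy]; ring
        rw [h5]
        push_cast
        ring
      rw [h3, Int.fract_sub_intCast]
    have h4 := fract_mul_le e ((q : ℝ) * ((2 : ℝ) ^ p * ξ))
    rw [← h2] at h4
    have h5 := hp2.trans h4
    have heR : (0 : ℝ) < e := by exact_mod_cast he0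
    rw [div_le_iff₀ (by positivity)] at h5 ⊢
    have h6 : (e : ℝ) * 2 ^ L ≤ ((2 ^ l : ℕ) : ℝ) := by
      have h7 : e * 2 ^ L ≤ 2 ^ l := by
        refine le_trans (Nat.mul_le_mul_right _ ?_) hD
        rw [he]
        exact Nat.le_mul_of_pos_left e hq1
      exact_mod_cast h7
    have h7 := Int.fract_nonneg ((q : ℝ) * ((2 : ℝ) ^ p * ξ))
    nlinarith
  have hexc := exceptional (ξ := ξ) (M := 2 ^ l) (Nat.one_le_two_pow) hQ hh P hPmem
  refine le_trans ?_ hexc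
  have hsub : (range (2 ^ l)).filter (fun m : ℕ =>
      (count 1 (m * ξ) (n' + h) : ℝ) < Real.sqrt (L * ((n' + h : ℕ) : ℝ)) / (17 * h)) ⊆
      (range (2 ^ l)).filter (fun m : ℕ => 2 * (P.filter (fun p => 1 / (2 : ℝ) ^ h ≤
        Int.fract ((2 : ℝ) ^ p * (m * ξ)))).card < P.card) := by
    intro m hm
    obtain ⟨hm1, hm2⟩ := mem_filter.1 hm
    refine mem_filter.2 ⟨hm1, ?_⟩
    by_contra hcon
    push Not at hcon
    have h2 := card_le_count (y := m * ξ) (n := n') h1 (P.filter (fun p => 1 / (2 : ℝ) ^ h ≤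
        Int.fract ((2 : ℝ) ^ p * (m * ξ)))) (fun p hp => by
      obtain ⟨h3, h4⟩ := mem_filter.1 hp
      obtain ⟨h5, -⟩ := mem_filter.1 h3
      exact ⟨mem_range.1 h5, h4⟩)
    have h3 : P.card ≤ 2 * (count 1 (m * ξ) (n' + h) * h) := by omega
    have h4 : (P.card : ℝ) ≤ 2 * ((count 1 (m * ξ) (n' + h) : ℝ) * h) := by exact_mod_cast h3
    rw [lt_div_iff₀ (by positivity)] at hm2
    have h5 : Real.sqrt (L * ((n' + h : ℕ) : ℝ)) ≤ 17 / 16 * Real.sqrt (L * n') := by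
      rw [Real.sqrt_le_left (by positivity), mul_pow, Real.sq_sqrt (by positivity)]
      have h6 : (99 : ℝ) * h ≤ n' := by exact_mod_cast hn'h
      push_cast
      nlinarith
    linarith
  exact_mod_cast card_le_card hsub

end Pool.Agent.U810.SM
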