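import Pool.Agent.U810.SM.Count

/-!
# Both binary digits in the multiples of a quadratic irrational
-/

set_option autoImplicit false

open Finset Filter

namespace Pool.Agent.U810.SM

lemma pow_four_le (Q : ℕ) : Q ^ 4 ≤ 2 ^ (Q + 16) := by
  rcases Nat.lt_or_ge Q 16 with h | h
  · calc Q ^ 4 ≤ 16 ^ 4 := Nat.pow_le_pow_left h.le 4
      _ = 2 ^ 16 := by norm_num
      _ ≤ 2 ^ (Q + 16) := Nat.pow_le_pow_right (by norm_num) (by omega)
  · induction Q, h using Nat.le_induction with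
    | base => norm_num
    | succ Q hQ ih =>
      have h1 : (Q + 1) ^ 4 ≤ 2 * Q ^ 4 := by
        have h2 : 16 * (Q + 1) ≤ 17 * Q := by omega
        have h3 : (16 * (Q + 1)) ^ 4 ≤ (17 * Q) ^ 4 := Nat.pow_le_pow_left h2 4
        rw [mul_pow, mul_pow] at h3
        norm_num at h3
        omega
      calc (Q + 1) ^ 4 ≤ 2 * Q ^ 4 := h1
        _ ≤ 2 * 2 ^ (Q + 16) := Nat.mul_le_mul_left 2 ih
        _ = 2 ^ (Q + 1 + 16) := by rw [← pow_succ']

lemma size {a l Q : ℕ} (hl : 1024 + 8 * a ≤ l) (hQ : Q ^ 2 ≤ l) :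
    a * Q.factorial * 2 ^ (l / 2) ≤ 2 ^ l := by
  have h1 : a * Q.factorial ≤ 2 ^ (l - l / 2) := by
    have h2 : (a * Q.factorial) ^ 4 ≤ (2 ^ (l - l / 2)) ^ 4 := by
      have h3 : a ≤ 2 ^ a := Nat.lt_two_pow_self.le
      have h4 : Q.factorial ≤ Q ^ Q := Nat.factorial_le_pow Q
      have hQ16 : 16 * Q ≤ l / 2 := by
        rcases Nat.lt_or_ge Q 32 with h | h
        · omega
        · have : 32 * Q ≤ Q ^ 2 := by rw [sq]; exact Nat.mul_le_mul_right Q h
          omega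
      calc (a * Q.factorial) ^ 4 ≤ (2 ^ a * Q ^ Q) ^ 4 :=
            Nat.pow_le_pow_left (Nat.mul_le_mul h3 h4) 4
        _ = 2 ^ (a * 4) * (Q ^ 4) ^ Q := by rw [mul_pow, ← pow_mul, ← pow_mul, ← pow_mul,
            mul_comm Q 4]
        _ ≤ 2 ^ (a * 4) * (2 ^ (Q + 16)) ^ Q :=
            Nat.mul_le_mul_left _ (Nat.pow_le_pow_left (pow_four_le Q) Q)
        _ = 2 ^ (a * 4 + (Q ^ 2 + 16 * Q)) := by rw [← pow_mul, ← pow_add]; congr 1; ring
        _ ≤ 2 ^ ((l - l / 2) * 4) := Nat.pow_le_pow_right (by norm_num) (by omega)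
        _ = (2 ^ (l - l / 2)) ^ 4 := by rw [← pow_mul]
    exact (Nat.pow_le_pow_iff_left (by norm_num)).1 h2
  calc a * Q.factorial * 2 ^ (l / 2) ≤ 2 ^ (l - l / 2) * 2 ^ (l / 2) :=
        Nat.mul_le_mul_right _ h1
    _ = 2 ^ l := by rw [← pow_add]; congr 1; omega

lemma clog_bound {Q : ℕ} (hQ : 2 ≤ Q) :
    ∃ h : ℕ, 1 ≤ h ∧ 5 * Q ≤ 2 ^ h ∧ (h : ℝ) ≤ 7.5 * Real.log Q := by
  refine ⟨Nat.clog 2 (5 * Q), ?_, Nat.le_pow_clog (by norm_num) _, ?_⟩
  · exact Nat.clog_pos (by norm_num) (by omega)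
  · set h := Nat.clog 2 (5 * Q) with hh
    have h0 : 1 ≤ h := Nat.clog_pos (by norm_num) (by omega)
    have h1 : 2 ^ h.pred < 5 * Q := Nat.pow_pred_clog_lt_self (by norm_num) (by omega)
    have h2 : (2 : ℝ) ^ h < 16 * Q := by
      have h3 : 2 ^ h = 2 * 2 ^ h.pred := by
        rw [← pow_succ']; congr 1
        exact (Nat.succ_pred_eq_of_pos h0).symm
      have h4 : 2 ^ h < 16 * Q := by omega
      exact_mod_cast h4
    have hQR : (2 : ℝ) ≤ Q := by exact_mod_cast hQ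
    have h3 := Real.log_lt_log (by positivity) h2
    rw [Real.log_pow, Real.log_mul (by norm_num) (by positivity)] at h3
    have h4 : Real.log 16 = 4 * Real.log 2 := by
      rw [show (16 : ℝ) = 2 ^ 4 by norm_num, Real.log_pow]; norm_num
    have h5 : Real.log 2 ≤ Real.log Q := Real.log_le_log (by norm_num) hQR
    have h6 := Real.log_two_gt_d9
    have h7 : (h : ℝ) * Real.log 2 ≤ 5 * Real.log Q := by linarith
    have h8 : (0 : ℝ) ≤ h := Nat.cast_nonneg _
    nlinarith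

theorem both {A B C : ℤ} (hA : 0 < A) {ξ : ℝ} (hirr : Irrational ξ)
    (hq : (A : ℝ) * ξ ^ 2 + B * ξ + C = 0) :
    ∀ l Q : ℕ, 1024 + 8 * A.toNat ≤ l → 2 ≤ Q → Q ^ 2 ≤ l → ∃ n0 : ℕ, ∀ n : ℕ, n0 ≤ n →
      (((range (2 ^ l)).filter (fun m : ℕ =>
        ¬ (Real.sqrt (l * n) / (200 * Real.log Q) ≤ count 0 (m * ξ) n ∧
          Real.sqrt (l * n) / (200 * Real.log Q) ≤ count 1 (m * ξ) n))).card : ℝ) ≤
        13 * (2 : ℝ) ^ l / Q := by
  classical
  intro l Q hl hQ hQl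
  obtain ⟨h, h1, h2, h3⟩ := clog_bound hQ
  have hsize := size hl hQl
  have hq' : (A : ℝ) * (-ξ) ^ 2 + ((-B : ℤ) : ℝ) * (-ξ) + C = 0 := by
    push_cast
    linarith
  obtain ⟨n1, hn1⟩ := one_sign hA hirr hq (l := l) (L := l / 2) (Q := Q) (h := h) (by omega)
    (by omega) h1 h2 hsize
  obtain ⟨n2, hn2⟩ := one_sign hA hirr.neg hq' (l := l) (L := l / 2) (Q := Q) (h := h) (by omega)
    (by omega) h1 h2 hsize
  refine ⟨max n1 n2, fun n hn => ?_⟩
  have e1 := hn1 n ((le_max_left _ _).trans hn)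
  have e2 := hn2 n ((le_max_right _ _).trans hn)
  have hQR : (2 : ℝ) ≤ Q := by exact_mod_cast hQ
  have hlogQ : 0 < Real.log Q := Real.log_pos (by linarith)
  have hhR : (1 : ℝ) ≤ h := by exact_mod_cast h1
  -- comparison of the bounds
  have hcmp : Real.sqrt (l * n) / (200 * Real.log Q) ≤
      Real.sqrt ((l / 2 : ℕ) * n) / (17 * h) := by
    rw [div_le_div_iff₀ (by positivity) (by positivity)]
    have h4 : 127.5 * Real.sqrt (l * n) ≤ 200 * Real.sqrt ((l / 2 : ℕ) * n) := by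
      have e3 : 127.5 * Real.sqrt (l * n) = Real.sqrt (127.5 ^ 2 * (l * n)) := by
        rw [Real.sqrt_mul (by positivity : (0 : ℝ) ≤ 127.5 ^ 2), Real.sqrt_sq (by norm_num)]
      have e4 : 200 * Real.sqrt ((l / 2 : ℕ) * n) = Real.sqrt (200 ^ 2 * ((l / 2 : ℕ) * n)) := by
        rw [Real.sqrt_mul (by positivity : (0 : ℝ) ≤ 200 ^ 2), Real.sqrt_sq (by norm_num)]
      rw [e3, e4]
      apply Real.sqrt_le_sqrt
      have h5 : (l : ℝ) ≤ 2 * (l / 2 : ℕ) + 1 := by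
        have : l ≤ 2 * (l / 2) + 1 := by omega
        exact_mod_cast this
      have h6 : (1024 : ℝ) ≤ l := by exact_mod_cast (by omega : 1024 ≤ l)
      have hn0 : (0 : ℝ) ≤ n := Nat.cast_nonneg _
      have h7 : 127.5 ^ 2 * (l : ℝ) ≤ 200 ^ 2 * (l / 2 : ℕ) := by linarith
      have h8 := mul_le_mul_of_nonneg_right h7 hn0
      linarith
    have h5 : Real.sqrt (l * n) * (17 * h) ≤ Real.sqrt (l * n) * (127.5 * Real.log Q) :=
      mul_le_mul_of_nonneg_left (by linarith) (Real.sqrt_nonneg _)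
    have h6 : Real.sqrt (l * n) * (127.5 * Real.log Q) =
        (127.5 * Real.sqrt (l * n)) * Real.log Q := by ring
    have h7 := mul_le_mul_of_nonneg_right h4 hlogQ.le
    have h8 : 200 * Real.sqrt ((l / 2 : ℕ) * n) * Real.log Q =
      Real.sqrt ((l / 2 : ℕ) * n) * (200 * Real.log Q) := by ring
    linarith
  set b := Real.sqrt ((l / 2 : ℕ) * n) / (17 * h) with hb
  have hsub : (range (2 ^ l)).filter (fun m : ℕ =>
        ¬ (Real.sqrt (l * n) / (200 * Real.log Q) ≤ count 0 (m * ξ) n ∧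
          Real.sqrt (l * n) / (200 * Real.log Q) ≤ count 1 (m * ξ) n)) ⊆
      {0} ∪ ((range (2 ^ l)).filter (fun m : ℕ => (count 1 (m * ξ) n : ℝ) < b) ∪
        (range (2 ^ l)).filter (fun m : ℕ => (count 1 (m * (-ξ)) n : ℝ) < b)) := by
    intro m hm
    obtain ⟨hm1, hm2⟩ := mem_filter.1 hm
    rcases Nat.eq_zero_or_pos m with h0 | h0
    · exact mem_union_left _ (mem_singleton.2 h0)
    refine mem_union_right _ ?_
    by_contra hcon
    rw [mem_union, mem_filter, mem_filter] at hcon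
    push Not at hcon
    obtain ⟨c1, c2⟩ := hcon
    have d1 := c1 hm1
    have d2 := c2 hm1
    apply hm2
    refine ⟨hcmp.trans ?_, hcmp.trans d1⟩
    have e3 : Irrational ((m : ℝ) * ξ) := hirr.natCast_mul h0.ne'
    rw [count_neg e3, ← mul_neg]
    exact d2
  have hcard : (((range (2 ^ l)).filter (fun m : ℕ =>
        ¬ (Real.sqrt (l * n) / (200 * Real.log Q) ≤ count 0 (m * ξ) n ∧
          Real.sqrt (l * n) / (200 * Real.log Q) ≤ count 1 (m * ξ) n))).card : ℝ) ≤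
      1 + ((((range (2 ^ l)).filter (fun m : ℕ => (count 1 (m * ξ) n : ℝ) < b)).card : ℝ) +
        (((range (2 ^ l)).filter (fun m : ℕ => (count 1 (m * (-ξ)) n : ℝ) < b)).card : ℝ)) := by
    have h4 := (card_le_card hsub).trans (card_union_le _ _)
    have h5 := card_union_le ((range (2 ^ l)).filter (fun m : ℕ => (count 1 (m * ξ) n : ℝ) < b))
      ((range (2 ^ l)).filter (fun m : ℕ => (count 1 (m * (-ξ)) n : ℝ) < b))
    rw [card_singleton] at h4
    exact_mod_cast h4.trans (Nat.add_le_add_left h5 1)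
  refine hcard.trans ?_
  have hQ2 : (Q : ℝ) ≤ 2 ^ l := by
    have h4 : Q ≤ 2 ^ l := by
      have h5 : Q ≤ Q ^ 2 := by rw [sq]; exact Nat.le_mul_of_pos_left Q (by omega)
      exact (h5.trans hQl).trans Nat.lt_two_pow_self.le
    exact_mod_cast h4
  have h4 : 1 ≤ (2 : ℝ) ^ l / Q := by rw [le_div_iff₀ (by linarith)]; linarith
  push_cast at e1 e2
  have h5 : 13 * (2 : ℝ) ^ l / Q = 13 * (2 ^ l / Q) := by ring
  rw [h5]
  linarith

/-- almost all multiples have many digits of both kinds, infinitely often -/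
theorem frequently {A B C : ℤ} (hA : 0 < A) {ξ : ℝ} (hirr : Irrational ξ)
    (hq : (A : ℝ) * ξ ^ 2 + B * ξ + C = 0) (K : ℝ) :
    ∃ M0 : ℕ, ∀ M : ℕ, M0 ≤ M → (({m : ℕ | m < M ∧ ¬ ∃ᶠ n : ℕ in atTop,
      K * Real.sqrt n ≤ count 0 (m * ξ) n ∧ K * Real.sqrt n ≤ count 1 (m * ξ) n}.ncard : ℕ) : ℝ) ≤
        30 * M / Real.sqrt (Real.log M) := by
  classical
  obtain ⟨l0, hl0⟩ : ∃ l0 : ℕ, ∀ l Q : ℕ, l0 ≤ l → 2 ≤ Q → Q ^ 2 ≤ l → ∃ n0 : ℕ, ∀ n : ℕ,
      n0 ≤ n → (((range (2 ^ l)).filter (fun m : ℕ =>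
        ¬ (Real.sqrt (l * n) / (200 * Real.log Q) ≤ count 0 (m * ξ) n ∧
          Real.sqrt (l * n) / (200 * Real.log Q) ≤ count 1 (m * ξ) n))).card : ℝ) ≤
        13 * (2 : ℝ) ^ l / Q := ⟨_, both hA hirr hq⟩
  -- the growth
  have hgrow : ∃ l1 : ℕ, ∀ l : ℕ, l1 ≤ l → K * (200 * Real.log l) ≤ Real.sqrt l := by
    have h1 : Tendsto (fun x : ℝ => Real.log x / x ^ (1 / 2 : ℝ)) atTop (nhds 0) :=
      (isLittleO_log_rpow_atTop (by norm_num : (0 : ℝ) < 1 / 2)).tendsto_div_nhds_zero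
    have h2 : ∀ᶠ x : ℝ in atTop, Real.log x / x ^ (1 / 2 : ℝ) < 1 / (200 * (|K| + 1)) :=
      h1.eventually (gt_mem_nhds (by positivity))
    obtain ⟨X, hX⟩ := (h2.and (eventually_gt_atTop 1)).exists_forall_of_atTop
    refine ⟨⌈X⌉₊, fun l hl => ?_⟩
    have hlX : X ≤ l := (Nat.le_ceil X).trans (by exact_mod_cast hl)
    obtain ⟨h3, h4⟩ := hX l hlX
    rw [← Real.sqrt_eq_rpow, div_lt_div_iff₀ (Real.sqrt_pos.2 (by linarith)) (by positivity)] at h3
    have h5 : 0 ≤ Real.log (l : ℝ) := Real.log_nonneg h4.le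
    have h6 : K ≤ |K| + 1 := (le_abs_self K).trans (by linarith)
    have h7 : K * (200 * Real.log l) ≤ (|K| + 1) * (200 * Real.log l) :=
      mul_le_mul_of_nonneg_right h6 (by linarith)
    linarith
  obtain ⟨l1, hl1⟩ := hgrow
  refine ⟨2 ^ (l0 + l1 + 1000), fun M hM => ?_⟩
  set l := Nat.clog 2 M with hl
  have hMpos : 1 < M := by
    have : 2 ^ 1 ≤ 2 ^ (l0 + l1 + 1000) := Nat.pow_le_pow_right (by norm_num) (by omega)
    omega
  have hMl : M ≤ 2 ^ l := Nat.le_pow_clog (by norm_num) M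
  have hlM : 2 ^ l.pred < M := Nat.pow_pred_clog_lt_self (by norm_num) hMpos
  have hll : l0 + l1 + 1000 ≤ l := by
    by_contra hc
    push Not at hc
    have : 2 ^ l < 2 ^ (l0 + l1 + 1000) := Nat.pow_lt_pow_right (by norm_num) hc
    omega
  set Q := Nat.sqrt l with hQ
  have hQl : Q ^ 2 ≤ l := Nat.sqrt_le' l
  have hlQ : l < (Q + 1) ^ 2 := Nat.lt_succ_sqrt' l
  have hQ30 : 31 ≤ Q := by
    by_contra hc
    push Not at hc
    have : (Q + 1) ^ 2 ≤ 31 ^ 2 := Nat.pow_le_pow_left (by omega) 2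
    omega
  obtain ⟨n0, hn0⟩ := hl0 l Q (by omega) (by omega) hQl
  -- the exceptional set is finite
  set F : Finset ℕ := (range M).filter (fun m : ℕ => ¬ ∃ᶠ n : ℕ in atTop,
      K * Real.sqrt n ≤ count 0 (m * ξ) n ∧ K * Real.sqrt n ≤ count 1 (m * ξ) n) with hF
  have hFc : {m : ℕ | m < M ∧ ¬ ∃ᶠ n : ℕ in atTop,
      K * Real.sqrt n ≤ count 0 (m * ξ) n ∧ K * Real.sqrt n ≤ count 1 (m * ξ) n}.ncard = F.card := by
    rw [← Set.ncard_coe_finset]
    congr 1
    ext m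
    simp [hF]
  rw [hFc]
  have hev : ∀ᶠ n : ℕ in atTop, ∀ m ∈ F,
      ¬ (K * Real.sqrt n ≤ count 0 (m * ξ) n ∧ K * Real.sqrt n ≤ count 1 (m * ξ) n) := by
    rw [Filter.eventually_all_finset]
    intro m hm
    obtain ⟨-, h1⟩ := mem_filter.1 hm
    rwa [not_frequently] at h1
  obtain ⟨n, hn1, hn2⟩ := (hev.and (eventually_ge_atTop n0)).exists
  have hQR : (31 : ℝ) ≤ Q := by exact_mod_cast hQ30
  have hlR : (1000 : ℝ) ≤ l := by exact_mod_cast (by omega : 1000 ≤ l)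
  have hlogQ : 0 < Real.log Q := Real.log_pos (by linarith)
  have hQlR : (Q : ℝ) ≤ l := by
    have : Q ≤ l := (Nat.sqrt_le_self l)
    exact_mod_cast this
  have hK : K * Real.sqrt n ≤ Real.sqrt (l * n) / (200 * Real.log Q) := by
    rw [le_div_iff₀ (by positivity), Real.sqrt_mul (by positivity)]
    have h1 := hl1 l (by omega)
    have h2 : Real.log Q ≤ Real.log l := Real.log_le_log (by linarith) hQlR
    rcases le_or_gt K 0 with h3 | h3
    · have h4 : K * Real.sqrt n * (200 * Real.log Q) ≤ 0 := by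
        have h5 : 0 ≤ Real.sqrt n * (200 * Real.log Q) := by positivity
        have h6 := mul_nonpos_of_nonpos_of_nonneg h3 h5
        linarith
      exact h4.trans (by positivity)
    · have h4 : K * (200 * Real.log Q) ≤ Real.sqrt l := by
        refine le_trans ?_ h1
        exact mul_le_mul_of_nonneg_left (by linarith) h3.le
      have h5 := mul_le_mul_of_nonneg_right h4 (Real.sqrt_nonneg (n : ℝ))
      linarith
  have h1 := hn0 n hn2
  have h2 : (F.card : ℝ) ≤ 13 * (2 : ℝ) ^ l / Q := by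
    refine le_trans ?_ h1
    have hsub : F ⊆ (range (2 ^ l)).filter (fun m : ℕ =>
        ¬ (Real.sqrt (l * n) / (200 * Real.log Q) ≤ count 0 (m * ξ) n ∧
          Real.sqrt (l * n) / (200 * Real.log Q) ≤ count 1 (m * ξ) n)) := by
      intro m hm
      obtain ⟨h3, -⟩ := mem_filter.1 hm
      rw [mem_filter, mem_range]
      have h4 := mem_range.1 h3
      refine ⟨by omega, fun h5 => hn1 m hm ⟨hK.trans h5.1, hK.trans h5.2⟩⟩
    exact_mod_cast card_le_card hsub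
  refine h2.trans ?_
  -- compare
  have hMR : (1 : ℝ) < M := by exact_mod_cast hMpos
  have h3 : (2 : ℝ) ^ l ≤ 2 * M := by
    have h4 : 2 ^ l = 2 * 2 ^ l.pred := by
      rw [← pow_succ']; congr 1
      exact (Nat.succ_pred_eq_of_pos (by omega)).symm
    have h5 : 2 ^ l ≤ 2 * M := by omega
    exact_mod_cast h5
  have h4 : Real.log M ≤ 0.7 * l := by
    have h5 : Real.log M ≤ Real.log (2 ^ l) := by
      apply Real.log_le_log (by linarith)
      exact_mod_cast hMl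
    rw [Real.log_pow] at h5
    have := Real.log_two_lt_d9
    nlinarith
  have hlogM : 0 < Real.log M := Real.log_pos hMR
  have h5 : Real.sqrt (Real.log M) ≤ Q := by
    rw [Real.sqrt_le_left (by positivity)]
    have h6 : (l : ℝ) ≤ (Q + 1) ^ 2 := by
      have : (l : ℝ) ≤ (((Q + 1) ^ 2 : ℕ) : ℝ) := by exact_mod_cast hlQ.le
      push_cast at this
      exact this
    nlinarith
  rw [div_le_div_iff₀ (by linarith) (Real.sqrt_pos.2 hlogM)]
  have h6 : 13 * (2 : ℝ) ^ l * Real.sqrt (Real.log M) ≤ 13 * (2 * M) * Q := by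
    apply mul_le_mul (by linarith) h5 (Real.sqrt_nonneg _) (by positivity)
  have h7 : 0 ≤ (M : ℝ) * Q := by positivity
  linarith

end Pool.Agent.U810.SM
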