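import Pool.Agent.H820R3.DG.Count

/-!
# The number of nonzero digits of a quadratic integer

If `0 < y < 1` is irrational and `y² + β y + γ = 0` with integers `β`, `γ`, then in every base `b`
at least `√n / 2` of the first `n` digits are not zero, for all large `n`.
-/

set_option autoImplicit false
set_option linter.unusedSectionVars false

open Finset

namespace Pool.Agent.U810.SM

open Pool.Agent.H394R2.Ones

/-- the number of nonzero digits at the places below `N` -/
noncomputable def nz (b : ℕ) (y : ℝ) (N : ℕ) : ℕ := ((range N).filter (fun k => 1 ≤ x b y k)).card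

section
variable {b : ℕ} {y : ℝ}

lemma nz_mono {m n : ℕ} (h : m ≤ n) : nz b y m ≤ nz b y n := by
  unfold nz
  refine card_le_card fun k hk => ?_
  rw [mem_filter, mem_range] at hk ⊢
  exact ⟨by omega, hk.2⟩

lemma K_le_nz (hb : 2 ≤ b) (N : ℕ) : K b y N ≤ (b - 1) * nz b y (N + 1) := by
  unfold K nz
  rw [card_filter, mul_sum]
  refine sum_le_sum fun i _ => ?_
  have h : x b y i < b := Nat.mod_lt _ (by omega)
  split_ifs with h1
  · omega
  · omega

lemma r_ne (N : ℕ) : ((range N).filter (fun s => r b y s ≠ 0)).card ≤ nz b y N ^ 2 := by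
  set F := (range N).filter (fun k => 1 ≤ x b y k) with hF
  have hsub : (range N).filter (fun s => r b y s ≠ 0) ⊆ (F ×ˢ F).image (fun p => p.1 + p.2) := by
    intro s hs
    rw [mem_filter, mem_range] at hs
    obtain ⟨hsN, hr⟩ := hs
    unfold r at hr
    obtain ⟨p, hp, hne⟩ := exists_ne_zero_of_sum_ne_zero hr
    rw [HasAntidiagonal.mem_antidiagonal] at hp
    have h1 : x b y p.1 ≠ 0 := fun h => hne (by rw [h, zero_mul])
    have h2 : x b y p.2 ≠ 0 := fun h => hne (by rw [h, mul_zero])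
    rw [mem_image]
    refine ⟨p, ?_, hp⟩
    rw [mem_product, hF, mem_filter, mem_filter, mem_range, mem_range]
    exact ⟨⟨by omega, by omega⟩, ⟨by omega, by omega⟩⟩
  have h1 := (card_le_card hsub).trans card_image_le
  rw [card_product] at h1
  rw [sq]
  exact h1

theorem nonzero (hb : 2 ≤ b) (hy0 : 0 < y) (hy1 : y < 1) (hirr : Irrational y) {β γ : ℤ}
    (hq : y ^ 2 + β * y + γ = 0) :
    ∃ n0 : ℕ, ∀ n : ℕ, n0 ≤ n → (n : ℝ) ≤ 4 * (nz b y n : ℝ) ^ 2 := by
  have halg : IsAlgebraic ℚ y := by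
    refine ⟨Polynomial.X ^ 2 + Polynomial.C (β : ℚ) * Polynomial.X + Polynomial.C (γ : ℚ), ?_, ?_⟩
    · intro h
      have := congrArg (fun p => Polynomial.coeff p 2) h
      simp only [Polynomial.coeff_add, Polynomial.coeff_X_pow, Polynomial.coeff_C_mul,
        Polynomial.coeff_X, Polynomial.coeff_C, Polynomial.coeff_zero] at this
      norm_num at this
    · simp only [map_add, map_mul, map_pow, Polynomial.aeval_X, map_intCast]
      exact hq
  obtain ⟨C, hC, hbad⟩ := Pool.Agent.H820R3.DG.bad_count hb hy0 hy1 halg hirr (2 * |(β : ℝ)|)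
    (1 / 4) (by norm_num) le_rfl
  have hbR : (2 : ℝ) ≤ b := by exact_mod_cast hb
  -- the inequality
  have hmain : ∀ N : ℕ, (N : ℝ) ≤ C * (b * nz b y (N + 3) + 1) + N / 4 +
      5 / 2 * (nz b y (N + 3) : ℝ) ^ 2 + (nz b y (N + 3) + 1) := by
    intro N
    set κ := nz b y (N + 3) with hκ
    have hκ0 : (0 : ℝ) ≤ κ := Nat.cast_nonneg _
    have hK : (K b y (N + 2) : ℝ) ≤ (b - 1) * κ := by
      have h1 := K_le_nz (y := y) hb (N + 2)
      have h2 : ((K b y (N + 2) : ℕ) : ℝ) ≤ (((b - 1) * κ : ℕ) : ℝ) := by exact_mod_cast h1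
      rw [Nat.cast_mul, Nat.cast_sub (by omega)] at h2
      simpa using h2
    have hKN : (K b y N : ℝ) ≤ b * κ := by
      have h1 : (K b y N : ℝ) ≤ K b y (N + 2) := by exact_mod_cast K_mono (by omega)
      nlinarith
    have hK0 : (0 : ℝ) ≤ K b y (N + 2) := Nat.cast_nonneg _
    set Bad := (range N).filter (fun m => T b y m ≤ 2 * |(β : ℝ)| * ep b y m) with hBad
    set A := (range N).filter (fun m => 1 / 2 ≤ T b y m ∧ r b y (m + 1) = 0 ∧ r b y (m + 2) = 0)
      with hA
    set E1 := (range N).filter (fun m => r b y (m + 1) ≠ 0) with hE1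
    set E2 := (range N).filter (fun m => r b y (m + 2) ≠ 0) with hE2
    have hcover : range N ⊆ Bad ∪ (A ∪ (E1 ∪ E2)) := by
      intro m hm
      by_cases h1 : T b y m ≤ 2 * |(β : ℝ)| * ep b y m
      · exact mem_union_left _ (mem_filter.2 ⟨hm, h1⟩)
      refine mem_union_right _ ?_
      by_cases h2 : r b y (m + 1) ≠ 0
      · exact mem_union_right _ (mem_union_left _ (mem_filter.2 ⟨hm, h2⟩))
      by_cases h3 : r b y (m + 2) ≠ 0
      · exact mem_union_right _ (mem_union_right _ (mem_filter.2 ⟨hm, h3⟩))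
      push Not at h1 h2 h3
      refine mem_union_left _ (mem_filter.2 ⟨hm, ?_, h2, h3⟩)
      have hZ : T b y m + β * ep b y m =
          ((-γ * (b : ℤ) ^ m - S b y m - β * Pool.Agent.H394R2.Ones.B b y m : ℤ) : ℝ) := by
        unfold T ep
        push_cast
        linear_combination ((b : ℝ) ^ m) * hq
      have hT := T_pos hb hy0 hy1 hirr m
      have hep := ep_nonneg (b := b) hy0 m
      have h4 : |(β : ℝ) * ep b y m| ≤ |(β : ℝ)| * ep b y m := by
        rw [abs_mul, abs_of_nonneg hep]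
      obtain ⟨h5, h6⟩ := abs_le.1 h4
      have h7 : (0 : ℝ) <
          ((-γ * (b : ℤ) ^ m - S b y m - β * Pool.Agent.H394R2.Ones.B b y m : ℤ) : ℝ) := by
        rw [← hZ]; linarith
      have h8 : (1 : ℝ) ≤
          ((-γ * (b : ℤ) ^ m - S b y m - β * Pool.Agent.H394R2.Ones.B b y m : ℤ) : ℝ) := by
        have : (0 : ℤ) < -γ * (b : ℤ) ^ m - S b y m - β * Pool.Agent.H394R2.Ones.B b y m := by
          exact_mod_cast h7
        exact_mod_cast (by omega : (1 : ℤ) ≤ -γ * (b : ℤ) ^ m - S b y m -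
          β * Pool.Agent.H394R2.Ones.B b y m)
      rw [← hZ] at h8
      linarith
    have hE1c : E1.card ≤ κ ^ 2 := by
      have h1 : E1.card ≤ ((range (N + 3)).filter (fun s => r b y s ≠ 0)).card := by
        refine card_le_card_of_injOn (fun m => m + 1) ?_ (fun a _ b _ h => by simpa using h)
        intro m hm
        have hm' := mem_filter.1 hm
        simp only [coe_filter, Set.mem_ofPred_eq, mem_range]
        have := mem_range.1 hm'.1
        exact ⟨by omega, hm'.2⟩
      exact h1.trans (r_ne _)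
    have hE2c : E2.card ≤ κ ^ 2 := by
      have h1 : E2.card ≤ ((range (N + 3)).filter (fun s => r b y s ≠ 0)).card := by
        refine card_le_card_of_injOn (fun m => m + 2) ?_ (fun a _ b _ h => by simpa using h)
        intro m hm
        have hm' := mem_filter.1 hm
        simp only [coe_filter, Set.mem_ofPred_eq, mem_range]
        have := mem_range.1 hm'.1
        exact ⟨by omega, hm'.2⟩
      exact h1.trans (r_ne _)
    have hAc : (A.card : ℝ) ≤ (κ : ℝ) ^ 2 / 2 + (κ + 1) := by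
      have h1 : (A.card : ℝ) * ((b : ℝ) ^ 2 / 2) ≤ ∑ m ∈ range N, T b y (m + 2) := by
        calc (A.card : ℝ) * ((b : ℝ) ^ 2 / 2) = ∑ _m ∈ A, (b : ℝ) ^ 2 / 2 := by
              rw [sum_const, nsmul_eq_mul]
          _ ≤ ∑ m ∈ A, T b y (m + 2) := by
              refine sum_le_sum fun m hm => ?_
              obtain ⟨-, h2, h3, h4⟩ := mem_filter.1 hm
              have h5 := T_succ hb hy0 hy1 m
              have h6 := T_succ hb hy0 hy1 (m + 1)
              rw [h3] at h5
              rw [show m + 1 + 1 = m + 2 by ring, h4, h5] at h6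
              rw [h6]
              push_cast
              nlinarith [sq_nonneg (b : ℝ)]
          _ ≤ _ := sum_le_sum_of_subset_of_nonneg (filter_subset _ _)
              fun m _ _ => (T_pos hb hy0 hy1 hirr _).le
      have h2 : ∑ m ∈ range N, T b y (m + 2) ≤ ∑ m ∈ range (N + 2), T b y m := by
        rw [sum_range_succ' (fun m => T b y m) (N + 1), sum_range_succ' (fun m => T b y (m + 1)) N]
        have := (T_pos hb hy0 hy1 hirr 0).le
        have := (T_pos hb hy0 hy1 hirr 1).le
        simp only [zero_add, add_assoc] at *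
        norm_num at *
        linarith
      have h3 := R_eq hb hy0 hy1 (N + 2)
      have h4 : (R b y (N + 2) : ℝ) ≤ (K b y (N + 2) : ℝ) ^ 2 := by
        have := K_sq (b := b) (y := y) (N + 2)
        have h5 : R b y (N + 2) ≤ K b y (N + 2) ^ 2 := by omega
        exact_mod_cast h5
      have h5 := T_le hb hy0 hy1 (N + 2)
      have h6 := (T_pos hb hy0 hy1 hirr 0).le
      have h7 : ((b : ℝ) - 1) * ∑ m ∈ range (N + 2), T b y m ≤
          ((b : ℝ) - 1) * ((b - 1) * κ ^ 2 + (κ + 1)) := by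
        have h8 : (K b y (N + 2) : ℝ) ^ 2 ≤ ((b - 1) * κ) ^ 2 := pow_le_pow_left₀ hK0 hK 2
        have h9 : ((b : ℝ) - 1) * ((b - 1) * κ ^ 2 + (κ + 1)) =
            ((b - 1) * κ) ^ 2 + (b - 1) * κ + (b - 1) := by ring
        rw [h9]
        linarith
      have h8 : ∑ m ∈ range (N + 2), T b y m ≤ (b - 1) * κ ^ 2 + (κ + 1) :=
        le_of_mul_le_mul_left h7 (by linarith)
      have h9 : (A.card : ℝ) * ((b : ℝ) ^ 2 / 2) ≤ (κ ^ 2 / 2 + (κ + 1)) * ((b : ℝ) ^ 2 / 2) := by
        refine (h1.trans (h2.trans h8)).trans ?_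
        have hκ2 : (0 : ℝ) ≤ κ ^ 2 := by positivity
        have h10 : ((b : ℝ) - 1) ≤ b ^ 2 / 4 := by nlinarith [sq_nonneg ((b : ℝ) - 2)]
        have h11 : (1 : ℝ) ≤ b ^ 2 / 2 := by nlinarith
        have h12 := mul_le_mul_of_nonneg_right h10 hκ2
        have h13 := mul_le_mul_of_nonneg_right h11 (by linarith : (0 : ℝ) ≤ κ + 1)
        have h14 : ((κ : ℝ) ^ 2 / 2 + (κ + 1)) * ((b : ℝ) ^ 2 / 2) =
            b ^ 2 / 4 * κ ^ 2 + b ^ 2 / 2 * (κ + 1) := by ring
        rw [h14]
        linarith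
      exact le_of_mul_le_mul_right h9 (by positivity)
    have hcard : N ≤ Bad.card + (A.card + (E1.card + E2.card)) := by
      have h1 := card_le_card hcover
      rw [card_range] at h1
      refine h1.trans ((card_union_le _ _).trans ?_)
      refine Nat.add_le_add_left ((card_union_le _ _).trans ?_) _
      exact Nat.add_le_add_left (card_union_le _ _) _
    have hcardR : (N : ℝ) ≤ Bad.card + (A.card + (E1.card + E2.card)) := by exact_mod_cast hcard
    have hE1R : (E1.card : ℝ) ≤ (κ : ℝ) ^ 2 := by exact_mod_cast hE1c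
    have hE2R : (E2.card : ℝ) ≤ (κ : ℝ) ^ 2 := by exact_mod_cast hE2c
    have hBadR := hbad N
    have h1 : C * (K b y N + 1) ≤ C * (b * κ + 1) := mul_le_mul_of_nonneg_left (by linarith) hC
    have h2 : (Bad.card : ℝ) ≤ C * (K b y N + 1) + 1 / 4 * N := hBadR
    linarith
  -- asymptotics
  set D : ℝ := C * b + 1 with hD
  have hD0 : 1 ≤ D := by
    have : 0 ≤ C * b := by positivity
    linarith
  obtain ⟨n1, hn1⟩ := exists_nat_gt ((100 * (D + C + 5)) ^ 2)
  refine ⟨n1 + 3, fun n hn => ?_⟩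
  obtain ⟨N, rfl⟩ : ∃ N, n = N + 3 := ⟨n - 3, by omega⟩
  by_contra hcon
  push Not at hcon
  have h1 := hmain N
  set κ := nz b y (N + 3) with hκ
  have hκ0 : (0 : ℝ) ≤ κ := Nat.cast_nonneg _
  set X : ℝ := Real.sqrt ((N + 3 : ℕ) : ℝ) with hX
  have hX2 : X ^ 2 = ((N + 3 : ℕ) : ℝ) := Real.sq_sqrt (by positivity)
  have hX0 : 0 ≤ X := Real.sqrt_nonneg _
  have hκX : 2 * (κ : ℝ) < X := by
    by_contra hc
    push Not at hc
    have : X ^ 2 ≤ (2 * κ) ^ 2 := pow_le_pow_left₀ hX0 hc 2
    rw [hX2] at this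
    linarith
  have hXbig : 100 * (D + C + 5) < X := by
    rw [hX]
    apply Real.lt_sqrt_of_sq_lt
    have : (n1 : ℝ) ≤ ((N + 3 : ℕ) : ℝ) := by exact_mod_cast (by omega : n1 ≤ N + 3)
    linarith
  have hN : (N : ℝ) = X ^ 2 - 3 := by rw [hX2]; push_cast; ring
  have h2 : C * (b * κ + 1) + (κ + 1) = D * κ + C + 1 := by rw [hD]; ring
  have h3 : (κ : ℝ) ^ 2 ≤ X ^ 2 / 4 := by nlinarith
  have h4 : D * κ ≤ D * X / 2 := by nlinarith
  rw [hN] at h1
  nlinarith

end

end Pool.Agent.U810.SM
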