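import Pool.Agent.U810.SM.Nonzero

/-!
# Places with a one among the next `L` binary digits

For a quadratic integer `0 < y < 1` and every `L ≥ 1`, at least `√(L n) / 8` of the `p < n` satisfy
`fract (2 ^ p y) ≥ 2 ^ (- L)`, for all large `n`.
-/

set_option autoImplicit false

open Finset

namespace Pool.Agent.U810.SM

open Pool.Agent.H394R2.Ones

lemma fract_mul_le (n : ℕ) (z : ℝ) : Int.fract ((n : ℝ) * z) ≤ n * Int.fract z := by
  have h1 : Int.fract ((n : ℝ) * z) = Int.fract ((n : ℝ) * Int.fract z) := by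
    have : (n : ℝ) * z = n * Int.fract z + ((n * ⌊z⌋ : ℤ) : ℝ) := by
      push_cast
      rw [Int.fract]
      ring
    rw [this, Int.fract_add_intCast]
  rw [h1]
  have h2 : (0 : ℝ) ≤ n * Int.fract z := mul_nonneg (Nat.cast_nonneg _) (Int.fract_nonneg _)
  have h3 : (0 : ℝ) ≤ ⌊(n : ℝ) * Int.fract z⌋ := by exact_mod_cast Int.floor_nonneg.2 h2
  rw [Int.fract]
  linarith

/-- the doubling step -/
lemma fract_double {z : ℝ} (h : Int.fract z < 1 / 2) : Int.fract (2 * z) = 2 * Int.fract z := by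
  have h0 := Int.fract_nonneg z
  rw [Int.fract_eq_iff]
  refine ⟨by linarith, by linarith, 2 * ⌊z⌋, ?_⟩
  push_cast
  rw [Int.fract]
  ring

lemma exists_half {y : ℝ} {L p0 : ℕ} (_hL : 1 ≤ L) (h : 1 / (2 : ℝ) ^ L ≤ Int.fract (2 ^ p0 * y)) :
    ∃ i < L, 1 / 2 ≤ Int.fract ((2 : ℝ) ^ (p0 + i) * y) := by
  by_contra hcon
  push Not at hcon
  have h1 : ∀ i, i ≤ L → Int.fract ((2 : ℝ) ^ (p0 + i) * y) = 2 ^ i * Int.fract (2 ^ p0 * y) := by
    intro i
    induction i with
    | zero => intro _; simp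
    | succ i ih =>
      intro hi
      have h2 := ih (by omega)
      have h3 := hcon i (by omega)
      have h4 : (2 : ℝ) ^ (p0 + (i + 1)) * y = 2 * (2 ^ (p0 + i) * y) := by
        rw [← add_assoc, pow_succ]; ring
      rw [h4, fract_double h3, h2, pow_succ]
      ring
  have h2 := h1 L le_rfl
  have h3 : 1 ≤ Int.fract ((2 : ℝ) ^ (p0 + L) * y) := by
    rw [h2]
    rw [div_le_iff₀ (by positivity)] at h
    linarith
  have h4 := Int.fract_lt_one ((2 : ℝ) ^ (p0 + L) * y)
  linarith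

/-- the places `p < n` with `fract (2 ^ p y) ≥ 2 ^ (- L)` -/
noncomputable def pl (L : ℕ) (y : ℝ) (n : ℕ) : Finset ℕ :=
  (range n).filter (fun p => 1 / (2 : ℝ) ^ L ≤ Int.fract ((2 : ℝ) ^ p * y))

lemma ep_fract {y : ℝ} (hy0 : 0 < y) (L N : ℕ) :
    ep (2 ^ L) y N = Int.fract ((2 : ℝ) ^ (N * L) * y) := by
  unfold ep Pool.Agent.H394R2.Ones.B
  have h : y * ((2 ^ L : ℕ) : ℝ) ^ N = (2 : ℝ) ^ (N * L) * y := by
    push_cast
    rw [← pow_mul, mul_comm L N, mul_comm]
  rw [h, Int.fract]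
  congr 1
  have h0 : 0 ≤ (2 : ℝ) ^ (N * L) * y := by positivity
  rw [← Int.natCast_floor_eq_floor h0]
  push_cast
  rfl

theorem pl_card {y : ℝ} (hy0 : 0 < y) {L : ℕ} (hL : 1 ≤ L) (N : ℕ) :
    (nz (2 ^ L) y N - 2) * L ≤ (pl L y (N * L)).card * 2 := by
  classical
  have hb : 2 ≤ 2 ^ L := by
    calc 2 = 2 ^ 1 := by norm_num
      _ ≤ 2 ^ L := Nat.pow_le_pow_right (by norm_num) hL
  set J := (range N).filter (fun k => 2 ≤ k ∧ 1 ≤ x (2 ^ L) y k) with hJ
  have hJc : nz (2 ^ L) y N - 2 ≤ J.card := by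
    have hsub : (range N).filter (fun k => 1 ≤ x (2 ^ L) y k) ⊆ range 2 ∪ J := by
      intro k hk
      obtain ⟨h1, h2⟩ := mem_filter.1 hk
      rcases Nat.lt_or_ge k 2 with h | h
      · exact mem_union_left _ (mem_range.2 h)
      · exact mem_union_right _ (mem_filter.2 ⟨h1, h, h2⟩)
    have h1 := (card_le_card hsub).trans (card_union_le _ _)
    rw [card_range] at h1
    unfold nz
    omega
  refine (Nat.mul_le_mul_right L hJc).trans ?_
  refine card_mul_le_card_mul (fun j p => ∃ P, (j - 1) * L ≤ P ∧ P < j * L ∧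
    1 / 2 ≤ Int.fract ((2 : ℝ) ^ P * y) ∧ p ≤ P ∧ P < p + L) ?_ ?_
  · intro j hj
    obtain ⟨h1, h2, h3⟩ := mem_filter.1 hj
    rw [mem_range] at h1
    obtain ⟨j', rfl⟩ : ∃ j', j = j' + 1 := ⟨j - 1, by omega⟩
    have h4 := Pool.Agent.H820R3.DG.ep_succ (y := y) hb j'
    have h5 := ep_nonneg (b := 2 ^ L) hy0 (j' + 1)
    have h6 : (1 : ℝ) ≤ x (2 ^ L) y (j' + 1) := by exact_mod_cast h3
    have h7 : 1 / (2 : ℝ) ^ L ≤ Int.fract ((2 : ℝ) ^ (j' * L) * y) := by
      rw [← ep_fract hy0, div_le_iff₀ (by positivity)]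
      push_cast at h4
      linarith
    obtain ⟨i, hi, h8⟩ := exists_half hL h7
    set P := j' * L + i with hP
    have hPL : L ≤ P := by
      have : 1 * L ≤ j' * L := Nat.mul_le_mul_right L (by omega)
      omega
    have hPj : P < (j' + 1) * L := by rw [Nat.add_mul, one_mul]; omega
    have himg : (range L).image (fun t => P - t) ⊆ bipartiteAbove (fun j p => ∃ P,
        (j - 1) * L ≤ P ∧ P < j * L ∧ 1 / 2 ≤ Int.fract ((2 : ℝ) ^ P * y) ∧ p ≤ P ∧ P < p + L)
        (pl L y (N * L)) (j' + 1) := by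
      intro p hp
      obtain ⟨t, ht, rfl⟩ := mem_image.1 hp
      rw [mem_range] at ht
      rw [mem_bipartiteAbove]
      refine ⟨?_, P, by simp [hP], hPj, h8, by omega, by omega⟩
      unfold pl
      rw [mem_filter, mem_range]
      constructor
      · have : (j' + 1) * L ≤ N * L := Nat.mul_le_mul_right L (by omega)
        omega
      · have h9 : (2 : ℝ) ^ P * y = ((2 ^ t : ℕ) : ℝ) * (2 ^ (P - t) * y) := by
          push_cast
          rw [← mul_assoc, ← pow_add]
          congr 2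
          omega
        have h10 := fract_mul_le (2 ^ t) ((2 : ℝ) ^ (P - t) * y)
        rw [← h9] at h10
        push_cast at h10
        rw [div_le_iff₀ (by positivity)]
        have h11 : (2 : ℝ) * 2 ^ t ≤ 2 ^ L := by
          rw [← pow_succ']
          exact pow_le_pow_right₀ (by norm_num) (by omega)
        have h12 := Int.fract_nonneg ((2 : ℝ) ^ (P - t) * y)
        have h13 := mul_le_mul_of_nonneg_right h11 h12
        linarith
    have h9 := card_le_card himg
    rw [card_image_of_injOn, card_range] at h9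
    · exact h9
    · intro t ht t' ht' heq
      simp only [coe_range, Set.mem_Iio] at ht ht'
      simp only at heq
      omega
  · intro p hp
    have hsub : bipartiteBelow (fun j p => ∃ P, (j - 1) * L ≤ P ∧ P < j * L ∧
        1 / 2 ≤ Int.fract ((2 : ℝ) ^ P * y) ∧ p ≤ P ∧ P < p + L) J p ⊆ {p / L + 1, p / L + 2} := by
      intro j hj
      rw [mem_bipartiteBelow] at hj
      obtain ⟨hjJ, P, h1, h2, -, h3, h4⟩ := hj
      obtain ⟨-, h5, -⟩ := mem_filter.1 hjJ
      have h6 : p / L < j := (Nat.div_lt_iff_lt_mul (by omega)).2 (by omega)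
      have h7 : j - 1 < p / L + 2 := by
        by_contra hc
        push Not at hc
        have h8 : (p / L + 2) * L ≤ (j - 1) * L := Nat.mul_le_mul_right L hc
        have h9 := Nat.lt_div_mul_add (a := p) (b := L) (by omega)
        rw [Nat.add_mul] at h8
        omega
      rw [mem_insert, mem_singleton]
      omega
    exact (card_le_card hsub).trans card_le_two

theorem places {y : ℝ} (hy0 : 0 < y) (hy1 : y < 1) (hirr : Irrational y) {β γ : ℤ}
    (hq : y ^ 2 + β * y + γ = 0) {L : ℕ} (hL : 1 ≤ L) :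
    ∃ n0 : ℕ, ∀ n : ℕ, n0 ≤ n → Real.sqrt (L * n) / 8 ≤ (pl L y n).card := by
  have hb : 2 ≤ 2 ^ L := by
    calc 2 = 2 ^ 1 := by norm_num
      _ ≤ 2 ^ L := Nat.pow_le_pow_right (by norm_num) hL
  obtain ⟨n1, hn1⟩ := nonzero hb hy0 hy1 hirr hq
  refine ⟨(n1 + 1000) * L, fun n hn => ?_⟩
  have hLR : (1 : ℝ) ≤ L := by exact_mod_cast hL
  set N := n / L with hN
  have hN1 : n1 + 1000 ≤ N := (Nat.le_div_iff_mul_le (by omega)).2 hn
  have hNn : N * L ≤ n := Nat.div_mul_le_self n L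
  have hnN : n < N * L + L := Nat.lt_div_mul_add (by omega)
  have h1 := hn1 N (by omega)
  have h2 := pl_card hy0 hL N
  have h3 : (pl L y (N * L)).card ≤ (pl L y n).card := by
    refine card_le_card fun p hp => ?_
    unfold pl at hp ⊢
    rw [mem_filter, mem_range] at hp ⊢
    exact ⟨by omega, hp.2⟩
  set ν := nz (2 ^ L) y N with hν
  have hNR : (1000 : ℝ) ≤ N := by exact_mod_cast (by omega : 1000 ≤ N)
  have hν0 : (0 : ℝ) ≤ ν := Nat.cast_nonneg _
  have hν2 : 2 ≤ ν := by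
    by_contra hc
    push Not at hc
    have : (ν : ℝ) ≤ 1 := by exact_mod_cast (by omega : ν ≤ 1)
    nlinarith
  have h4 : ((ν : ℝ) - 2) * L ≤ (pl L y n).card * 2 := by
    have h5 : (ν - 2) * L ≤ (pl L y n).card * 2 := h2.trans (Nat.mul_le_mul_right 2 h3)
    have h6 : (((ν - 2) * L : ℕ) : ℝ) ≤ (((pl L y n).card * 2 : ℕ) : ℝ) := by exact_mod_cast h5
    rw [Nat.cast_mul, Nat.cast_sub hν2] at h6
    push_cast at h6
    exact h6
  have h5 : (n : ℝ) ≤ (N + 1) * L := by
    have : (n : ℝ) ≤ ((N * L + L : ℕ) : ℝ) := by exact_mod_cast hnN.le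
    push_cast at this
    linarith
  have h6 : Real.sqrt (L * n) ≤ L * (2.1 * ν) := by
    rw [Real.sqrt_le_left (by positivity)]
    calc (L : ℝ) * n ≤ L * ((N + 1) * L) := mul_le_mul_of_nonneg_left h5 (by linarith)
      _ = L ^ 2 * (N + 1) := by ring
      _ ≤ L ^ 2 * (2.1 * ν) ^ 2 := by
          refine mul_le_mul_of_nonneg_left ?_ (by positivity)
          nlinarith
      _ = (L * (2.1 * ν)) ^ 2 := by ring
  have h7 : (15 : ℝ) ≤ ν := by
    by_contra hc
    push Not at hc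
    nlinarith
  nlinarith

end Pool.Agent.U810.SM
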